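import Pool.Agent.Helper64.SPX.Spec3

/-!
# Part K4: `st`-numbering
-/

set_option autoImplicit false

namespace Pool.Agent.Helper53.SPX.K4

open Pool.Agent.Helper64.SPX

open scoped Classical

variable {ω : Type}

/-- partial `st`-numbering of the set `S` -/
structure Inv (adj : ω → ω → Prop) (i t : ω) (S : Finset ω) (σ : ω → ℚ) : Prop where
  im : i ∈ S
  tm : t ∈ S
  inj : ∀ x ∈ S, ∀ y ∈ S, σ x = σ y → x = y
  lo : ∀ x ∈ S, x ≠ i → σ i < σ x
  hi : ∀ x ∈ S, x ≠ t → σ x < σ t
  nb : ∀ x ∈ S, x ≠ i → x ≠ t → (∃ y ∈ S, adj x y ∧ σ y < σ x) ∧ ∃ y ∈ S, adj x y ∧ σ x < σ y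

/-- insertion of a path -/
theorem extend {adj : ω → ω → Prop} (hs : ∀ o o', adj o o' → adj o' o) {i t : ω} {S : Finset ω}
    {σ : ω → ℚ} (h : Inv adj i t S σ) {r : ℕ} {v : ℕ → ω} (hr : 1 ≤ r) (ha : v 0 ∈ S)
    (hb : v (r + 1) ∈ S) (hab : σ (v 0) < σ (v (r + 1)))
    (hc : ∀ j, j ≤ r → adj (v j) (v (j + 1))) (hn : ∀ j, 1 ≤ j → j ≤ r → v j ∉ S)
    (hinj : ∀ j l, 1 ≤ j → j ≤ r → 1 ≤ l → l ≤ r → v j = v l → j = l) :
    ∃ (S' : Finset ω) (σ' : ω → ℚ), Inv adj i t S' σ' ∧ S.card < S'.card := by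
  obtain ⟨x0, hx0, hmin⟩ := Finset.exists_min_image (S.filter fun x => σ (v 0) < σ x) σ
    ⟨v (r + 1), Finset.mem_filter.2 ⟨hb, hab⟩⟩
  obtain ⟨hx0S, hx0l⟩ := Finset.mem_filter.1 hx0
  set ε : ℚ := σ x0 - σ (v 0) with hε
  have hε0 : 0 < ε := by rw [hε]; linarith
  have hgap : ∀ x ∈ S, σ (v 0) < σ x → σ (v 0) + ε ≤ σ x := by
    intro x hx hlt
    have := hmin x (Finset.mem_filter.2 ⟨hx, hlt⟩)
    rw [hε]
    linarith
  set idx : ω → ℕ := Function.invFunOn v (Set.Icc 1 r) with hidx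
  have hidx' : ∀ j, 1 ≤ j → j ≤ r → idx (v j) = j := by
    intro j h1 h2
    have hI : Set.InjOn v (Set.Icc 1 r) := by
      intro j hj l hl e
      exact hinj j l hj.1 hj.2 hl.1 hl.2 e
    exact hI.leftInvOn_invFunOn ⟨h1, h2⟩
  set σ' : ω → ℚ := fun x => if x ∈ S then σ x else σ (v 0) + ε * ((idx x : ℚ) / (r + 1)) with hσ'
  have hr' : (0 : ℚ) < r + 1 := by positivity
  have hold : ∀ x ∈ S, σ' x = σ x := by
    intro x hx
    simp only [hσ', if_pos hx]
  have hnew : ∀ j, 1 ≤ j → j ≤ r → σ' (v j) = σ (v 0) + ε * ((j : ℚ) / (r + 1)) := by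
    intro j h1 h2
    simp only [hσ', if_neg (hn j h1 h2), hidx' j h1 h2]
  have hnewlo : ∀ j, 1 ≤ j → j ≤ r → σ (v 0) < σ' (v j) := by
    intro j h1 h2
    rw [hnew j h1 h2]
    have : (0 : ℚ) < j := by exact_mod_cast h1
    have : 0 < ε * ((j : ℚ) / (r + 1)) := by positivity
    linarith
  have hnewhi : ∀ j, 1 ≤ j → j ≤ r → σ' (v j) < σ (v 0) + ε := by
    intro j h1 h2
    rw [hnew j h1 h2]
    have h3 : (j : ℚ) < r + 1 := by exact_mod_cast Nat.lt_succ_of_le h2
    have h4 : (j : ℚ) / (r + 1) < 1 := by rwa [div_lt_one hr']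
    have h5 : ε * ((j : ℚ) / (r + 1)) < ε * 1 := mul_lt_mul_of_pos_left h4 hε0
    linarith
  have hstep : ∀ j l, 1 ≤ j → j ≤ r → 1 ≤ l → l ≤ r → j < l → σ' (v j) < σ' (v l) := by
    intro j l h1 h2 h3 h4 h5
    rw [hnew j h1 h2, hnew l h3 h4]
    have h6 : (j : ℚ) < l := by exact_mod_cast h5
    have h7 : (j : ℚ) / (r + 1) < (l : ℚ) / (r + 1) := div_lt_div_of_pos_right h6 hr'
    have h8 := mul_lt_mul_of_pos_left h7 hε0
    linarith
  set S' : Finset ω := S ∪ (Finset.Icc 1 r).image v with hS'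
  have hmem : ∀ x, x ∈ S' ↔ x ∈ S ∨ ∃ j, 1 ≤ j ∧ j ≤ r ∧ v j = x := by
    intro x
    rw [hS']
    simp only [Finset.mem_union, Finset.mem_image, Finset.mem_Icc, and_assoc]
  have hmS : ∀ x ∈ S, x ∈ S' := fun x hx => (hmem x).2 (Or.inl hx)
  have hmv : ∀ j, 1 ≤ j → j ≤ r → v j ∈ S' := fun j h1 h2 => (hmem _).2 (Or.inr ⟨j, h1, h2, rfl⟩)
  -- no old value lies in the interval of the new values
  have hsep : ∀ x ∈ S, ∀ j, 1 ≤ j → j ≤ r → σ' (v j) ≠ σ x := by
    intro x hx j h1 h2 e
    have h3 := hnewlo j h1 h2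
    have h4 := hnewhi j h1 h2
    rw [e] at h3 h4
    have := hgap x hx h3
    linarith
  refine ⟨S', σ', ⟨hmS i h.im, hmS t h.tm, ?_, ?_, ?_, ?_⟩, ?_⟩
  · intro x hx y hy e
    rcases (hmem x).1 hx with hx | ⟨j, j1, j2, rfl⟩
    · rcases (hmem y).1 hy with hy | ⟨l, l1, l2, rfl⟩
      · rw [hold x hx, hold y hy] at e
        exact h.inj x hx y hy e
      · exfalso
        rw [hold x hx] at e
        exact hsep x hx l l1 l2 e.symm
    · rcases (hmem y).1 hy with hy | ⟨l, l1, l2, rfl⟩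
      · exfalso
        rw [hold y hy] at e
        exact hsep y hy j j1 j2 e
      · rcases lt_trichotomy j l with c | c | c
        · exact absurd e (hstep j l j1 j2 l1 l2 c).ne
        · rw [c]
        · exact absurd e (hstep l j l1 l2 j1 j2 c).ne'
  · intro x hx hxi
    rw [hold i h.im]
    rcases (hmem x).1 hx with hx | ⟨j, j1, j2, rfl⟩
    · rw [hold x hx]
      exact h.lo x hx hxi
    · have h1 := hnewlo j j1 j2
      by_cases hai : v 0 = i
      · rwa [hai] at h1
      · exact (h.lo _ ha hai).trans h1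
  · intro x hx hxt
    rw [hold t h.tm]
    rcases (hmem x).1 hx with hx | ⟨j, j1, j2, rfl⟩
    · rw [hold x hx]
      exact h.hi x hx hxt
    · have h1 := hnewhi j j1 j2
      have h2 := hgap _ hb hab
      by_cases hbt : v (r + 1) = t
      · rw [hbt] at h2
        linarith
      · have := h.hi _ hb hbt
        linarith
  · intro x hx hxi hxt
    rcases (hmem x).1 hx with hx | ⟨j, j1, j2, rfl⟩
    · obtain ⟨⟨y, hy, a1, a2⟩, ⟨z, hz, b1, b2⟩⟩ := h.nb x hx hxi hxt
      rw [hold x hx]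
      exact ⟨⟨y, hmS y hy, a1, by rwa [hold y hy]⟩, ⟨z, hmS z hz, b1, by rwa [hold z hz]⟩⟩
    · constructor
      · by_cases c : j = 1
        · subst c
          refine ⟨v 0, hmS _ ha, hs _ _ (hc 0 (by omega)), ?_⟩
          rw [hold _ ha]
          exact hnewlo 1 j1 j2
        · obtain ⟨l, rfl⟩ : ∃ l, j = l + 1 := ⟨j - 1, by omega⟩
          exact ⟨v l, hmv l (by omega) (by omega), hs _ _ (hc l (by omega)),
            hstep l (l + 1) (by omega) (by omega) j1 j2 (by omega)⟩
      · by_cases c : j = r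
        · subst c
          refine ⟨v (j + 1), hmS _ hb, hc j le_rfl, ?_⟩
          rw [hold _ hb]
          have h1 := hnewhi j j1 j2
          have h2 := hgap _ hb hab
          linarith
        · exact ⟨v (j + 1), hmv (j + 1) (by omega) (by omega), hc j j2,
            hstep j (j + 1) j1 j2 (by omega) (by omega) (by omega)⟩
  · refine Finset.card_lt_card ?_
    rw [Finset.ssubset_iff_of_subset (fun x hx => hmS x hx)]
    exact ⟨v 1, hmv 1 le_rfl hr, hn 1 le_rfl hr⟩

/-- paths between different points of `S`, outside of `S` -/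
def Pth (adj : ω → ω → Prop) (S : Finset ω) (r : ℕ) : Prop := 1 ≤ r ∧ ∃ v : ℕ → ω,
  v 0 ∈ S ∧ v (r + 1) ∈ S ∧ v 0 ≠ v (r + 1) ∧ (∀ j, j ≤ r → adj (v j) (v (j + 1))) ∧
  ∀ j, 1 ≤ j → j ≤ r → v j ∉ S

theorem exists_pth [Fintype ω] {adj : ω → ω → Prop}
    (hcon : ∀ K : Finset ω, K.Nonempty → K ≠ Finset.univ → ∃ k ∈ K, ∃ j, j ∉ K ∧ adj k j)
    (h2 : TwoConn adj) {S : Finset ω} {i t : ω} (hi : i ∈ S) (ht : t ∈ S) (hit : i ≠ t)
    (hS : S ≠ Finset.univ) : ∃ r, Pth adj S r := by
  obtain ⟨a, ha, w, hw, haw⟩ := hcon S ⟨i, hi⟩ hS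
  -- the points reachable from `a` outside of `S`
  set K : Finset ω := Finset.univ.filter fun w => ∃ (r : ℕ) (v : ℕ → ω), 1 ≤ r ∧ v 0 = a ∧
    v r = w ∧ (∀ j, j < r → adj (v j) (v (j + 1))) ∧ ∀ j, 1 ≤ j → j ≤ r → v j ∉ S with hK
  have hmem : ∀ w, w ∈ K ↔ ∃ (r : ℕ) (v : ℕ → ω), 1 ≤ r ∧ v 0 = a ∧
      v r = w ∧ (∀ j, j < r → adj (v j) (v (j + 1))) ∧ ∀ j, 1 ≤ j → j ≤ r → v j ∉ S := by
    intro w
    rw [hK]
    simp only [Finset.mem_filter, Finset.mem_univ, true_and]
  have hKS : ∀ w ∈ K, w ∉ S := by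
    intro w hw
    obtain ⟨r, v, h1, h2, h3, h4, h5⟩ := (hmem w).1 hw
    rw [← h3]
    exact h5 r h1 le_rfl
  have hwK : w ∈ K := by
    refine (hmem w).2 ⟨1, fun j => if j = 0 then a else w, le_rfl, by simp, by simp, ?_, ?_⟩
    · intro j hj
      have : j = 0 := by omega
      subst this
      simpa using haw
    · intro j h1 h2
      have : j ≠ 0 := by omega
      simpa [this] using hw
  obtain ⟨j0, hj0, hj0'⟩ : ∃ j, j ≠ a ∧ j ∈ S := by
    by_cases c : i = a
    · exact ⟨t, fun e => hit (c.trans e.symm), ht⟩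
    · exact ⟨i, c, hi⟩
  obtain ⟨k, hk, j, hja, hjK, hkj⟩ := h2 a K (fun h => hKS a h ha) ⟨w, hwK⟩
    ⟨j0, hj0, fun h => hKS j0 h hj0'⟩
  obtain ⟨r, v, h1, h2, h3, h4, h5⟩ := (hmem k).1 hk
  have hjS : j ∈ S := by
    by_contra hjS
    refine hjK ((hmem j).2 ⟨r + 1, fun m => if m ≤ r then v m else j, by omega, ?_, ?_, ?_, ?_⟩)
    · simp [h2]
    · simp
    · intro m hm
      by_cases c : m < r
      · have c1 : m ≤ r := c.le
        have c2 : m + 1 ≤ r := c
        simp only [c1, c2, if_true]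
        exact h4 m c
      · have : m = r := by omega
        subst this
        simp only [le_refl, if_true, Nat.not_succ_le_self, if_false]
        rw [h3]
        exact hkj
    · intro m hm1 hm2
      by_cases c : m ≤ r
      · simp only [c, if_true]
        exact h5 m hm1 c
      · simp only [c, if_false]
        exact hjS
  refine ⟨r, h1, fun m => if m ≤ r then v m else j, ?_, ?_, ?_, ?_, ?_⟩
  · simpa [h2] using ha
  · simpa using hjS
  · simp only [Nat.zero_le, if_true, Nat.not_succ_le_self, if_false, h2]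
    exact fun e => hja e.symm
  · intro m hm
    by_cases c : m < r
    · have c1 : m ≤ r := c.le
      have c2 : m + 1 ≤ r := c
      simp only [c1, c2, if_true]
      exact h4 m c
    · have : m = r := by omega
      subst this
      simp only [le_refl, if_true, Nat.not_succ_le_self, if_false]
      rw [h3]
      exact hkj
  · intro m hm1 hm2
    simp only [hm2, if_true]
    exact h5 m hm1 hm2

theorem step [Fintype ω] {adj : ω → ω → Prop} (hs : ∀ o o', adj o o' → adj o' o)
    (hcon : ∀ K : Finset ω, K.Nonempty → K ≠ Finset.univ → ∃ k ∈ K, ∃ j, j ∉ K ∧ adj k j)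
    (h2 : TwoConn adj) {S : Finset ω} {σ : ω → ℚ} {i t : ω} (hit : i ≠ t)
    (h : Inv adj i t S σ) (hS : S ≠ Finset.univ) :
    ∃ (S' : Finset ω) (σ' : ω → ℚ), Inv adj i t S' σ' ∧ S.card < S'.card := by
  have hex := exists_pth hcon h2 h.im h.tm hit hS
  obtain ⟨r, hr, hmin⟩ : ∃ r, Pth adj S r ∧ ∀ r', r' < r → ¬ Pth adj S r' :=
    ⟨Nat.find hex, Nat.find_spec hex, fun r' hr' => Nat.find_min hex hr'⟩
  obtain ⟨hr1, v, v1, v2, v3, v4, v5⟩ := hr
  have hinj : ∀ j l, 1 ≤ j → j < l → l ≤ r → v j ≠ v l := by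
    intro j l h1 h3 h4 e
    refine hmin (r - (l - j)) (by omega) ⟨by omega, fun m => if m ≤ j then v m else v (m + (l - j)),
      ?_, ?_, ?_, ?_, ?_⟩
    · simpa using v1
    · have c : ¬ r - (l - j) + 1 ≤ j := by omega
      have c2 : r - (l - j) + 1 + (l - j) = r + 1 := by omega
      simp only [c, if_false, c2]
      exact v2
    · have c : ¬ r - (l - j) + 1 ≤ j := by omega
      have c2 : r - (l - j) + 1 + (l - j) = r + 1 := by omega
      simp only [c, if_false, c2, Nat.zero_le, if_true]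
      exact v3
    · intro m hm
      by_cases c : m + 1 ≤ j
      · have c1 : m ≤ j := by omega
        simp only [c, c1, if_true]
        exact v4 m (by omega)
      · by_cases c1 : m ≤ j
        · have c2 : m = j := by omega
          subst c2
          simp only [le_refl, if_true, c, if_false]
          rw [e]
          have c3 : m + 1 + (l - m) = l + 1 := by omega
          rw [c3]
          exact v4 l h4
        · simp only [c, c1, if_false]
          have c3 : m + 1 + (l - j) = m + (l - j) + 1 := by omega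
          rw [c3]
          exact v4 _ (by omega)
    · intro m hm1 hm2
      by_cases c1 : m ≤ j
      · simp only [c1, if_true]
        exact v5 m hm1 (by omega)
      · simp only [c1, if_false]
        exact v5 _ (by omega) (by omega)
  have hinj' : ∀ j l, 1 ≤ j → j ≤ r → 1 ≤ l → l ≤ r → v j = v l → j = l := by
    intro j l h1 h3 h4 h5 e
    rcases lt_trichotomy j l with c | c | c
    · exact absurd e (hinj j l h1 c h5)
    · exact c
    · exact absurd e.symm (hinj l j h4 c h3)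
  rcases lt_trichotomy (σ (v 0)) (σ (v (r + 1))) with c | c | c
  · exact extend hs h hr1 v1 v2 c v4 v5 hinj'
  · exact absurd (h.inj _ v1 _ v2 c) v3
  · refine extend (v := fun m => v (r + 1 - m)) hs h hr1 ?_ ?_ ?_ ?_ ?_ ?_
    · simpa using v2
    · simpa using v1
    · simpa using c
    · intro j hj
      have c1 : r + 1 - j = (r - j) + 1 := by omega
      have c2 : r + 1 - (j + 1) = r - j := by omega
      simp only [c1, c2]
      exact hs _ _ (v4 (r - j) (by omega))
    · intro j h1 h3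
      exact v5 _ (by omega) (by omega)
    · intro j l h1 h3 h4 h5 e
      have := hinj' (r + 1 - j) (r + 1 - l) (by omega) (by omega) (by omega) (by omega) e
      omega

theorem main : S_K4 := by
  intro ω _ adj hs hcon h2 hcard i
  obtain ⟨i', hi', t, ht, hit⟩ := hcon {i} ⟨i, Finset.mem_singleton_self i⟩ (by
    intro e
    have := congrArg Finset.card e
    rw [Finset.card_singleton, Finset.card_univ] at this
    omega)
  rw [Finset.mem_singleton] at hi' ht
  subst hi'
  have hne : i' ≠ t := fun e => ht e.symm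
  -- a maximal partial numbering
  have hbase : Inv adj i' t {i', t} (fun x => if x = i' then 0 else 1) := by
    refine ⟨by simp, by simp, ?_, ?_, ?_, ?_⟩
    · intro x hx y hy e
      simp only [Finset.mem_insert, Finset.mem_singleton] at hx hy
      rcases hx with rfl | rfl <;> rcases hy with rfl | rfl <;> simp_all
    · intro x hx hxi
      simp [hxi]
    · intro x hx hxt
      simp only [Finset.mem_insert, Finset.mem_singleton] at hx
      rcases hx with rfl | rfl
      · simp [ht]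
      · exact absurd rfl hxt
    · intro x hx h1 h2
      simp only [Finset.mem_insert, Finset.mem_singleton] at hx
      rcases hx with rfl | rfl
      · exact absurd rfl h1
      · exact absurd rfl h2
  obtain ⟨S, hS, hmax⟩ := Finset.exists_max_image
    (Finset.univ.filter fun S : Finset ω => ∃ σ, Inv adj i' t S σ) Finset.card
    ⟨{i', t}, Finset.mem_filter.2 ⟨Finset.mem_univ _, _, hbase⟩⟩
  obtain ⟨-, σ, hσ⟩ := Finset.mem_filter.1 hS
  have hSu : S = Finset.univ := by
    by_contra hne'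
    obtain ⟨S', σ', h1, h3⟩ := step hs hcon h2 hne hσ hne'
    have := hmax S' (Finset.mem_filter.2 ⟨Finset.mem_univ _, σ', h1⟩)
    omega
  subst hSu
  -- integer ranks
  set ρ : ω → ℤ := fun x => ((Finset.univ.filter fun y => σ y < σ x).card : ℤ) with hρ
  have hρl : ∀ x y, σ x < σ y → ρ x < ρ y := by
    intro x y hxy
    have : (Finset.univ.filter fun z => σ z < σ x).card < (Finset.univ.filter fun z => σ z < σ y).card := by
      refine Finset.card_lt_card ?_
      rw [Finset.ssubset_iff_of_subset (fun z hz => by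
        rw [Finset.mem_filter] at hz ⊢
        exact ⟨hz.1, hz.2.trans hxy⟩)]
      exact ⟨x, by simp [hxy], by simp⟩
    simp only [hρ]
    exact_mod_cast this
  refine ⟨ρ, ?_, ?_, ?_⟩
  · intro x y e
    rcases lt_trichotomy (σ x) (σ y) with c | c | c
    · exact absurd e (hρl x y c).ne
    · exact hσ.inj x (Finset.mem_univ _) y (Finset.mem_univ _) c
    · exact absurd e (hρl y x c).ne'
  · intro o ho
    exact hρl _ _ (hσ.lo o (Finset.mem_univ _) ho)
  · intro k hk hnk
    have hkt : k ≠ t := by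
      intro e
      rw [e] at hnk
      exact hnk (hs _ _ hit)
    obtain ⟨⟨y, -, a1, a2⟩, ⟨z, -, b1, b2⟩⟩ := hσ.nb k (Finset.mem_univ _) hk hkt
    refine ⟨⟨y, ?_, a1, hρl _ _ a2⟩, ⟨z, ?_, b1, hρl _ _ b2⟩⟩
    · intro e
      rw [e] at a1
      exact hnk a1
    · intro e
      rw [e] at b1
      exact hnk b1

end Pool.Agent.Helper53.SPX.K4
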